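import Pool.Agent.Lib.MP_1c09d5_co.Family

set_option autoImplicit false

namespace Pool.Agent.Lib.MP_1c09d5_co

open Finset

lemma boxB (p : ℕ) [hp : Fact p.Prime] (S : Finset (ZMod p × ZMod p)) (hS : #S + 1 = 2 * p)
    (B : Finset (ZMod p)) (a τ w : ℕ) (hl : ∀ j ∈ B, 2 * a ≤ #(fib S j))
    (hτ1 : ∀ j ∈ B, #(fib S j) ≤ 2 * a + τ) (hτ2 : ∀ j ∉ B, #(fib S j) ≤ τ)
    (hsp : p ≤ ∑ j ∈ B, a * (#(fib S j) - a) + 1)
    (hval : p + w ^ 2 * τ + w * (2 * (#B * a) + 1) ≤ w * (2 * p) + 1) : HasZS p S := by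
  classical
  apply box_lin p S hS (fun j => if j ∈ B then a else 0) τ w
  · intro j; split_ifs with h
    · exact hl j h
    · omega
  · intro j; split_ifs with h
    · exact hτ1 j h
    · have := hτ2 j h; omega
  · have : ∑ j, (if j ∈ B then a else 0) * (#(fib S j) - if j ∈ B then a else 0) =
        ∑ j, if j ∈ B then a * (#(fib S j) - a) else 0 :=
      sum_congr rfl fun j _ => by split_ifs <;> simp
    rw [this, sum_ite_mem, univ_inter]; exact hsp
  · rw [sum_ite_mem, univ_inter, sum_const, smul_eq_mul]; exact hval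

lemma stratA (p : ℕ) [hp : Fact p.Prime] (S : Finset (ZMod p × ZMod p)) (hS : #S + 1 = 2 * p)
    (hN : 6 * p ≤ ∑ j, #(fib S j) ^ 2 + 10) (f : ℕ)
    (hf : f ≤ #{j | #(fib S j) ≠ 0 ∧ #(fib S j) % 2 = 0})
    (hfo : 4 * f + #{j | #(fib S j) % 2 = 1} + 3 ≤ 2 * p)
    (hval : p ≤ (#{j | #(fib S j) % 2 = 1} + f) ^ 2 / 4 + f ^ 2 / 4 + 1) : HasZS p S := by
  classical
  obtain ⟨F, hF, rfl⟩ := exists_subset_card_eq hf
  have hF' : ∀ j ∈ F, #(fib S j) ≠ 0 ∧ #(fib S j) % 2 = 0 := fun j hj => (mem_filter.mp (hF hj)).2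
  apply box p S hS (fun j => #(fib S j) / 2 - if j ∈ F then 1 else 0) 2
  · intro j; omega
  · intro j; split_ifs with h
    · have := hF' j h; omega
    · omega
  · have key : ∀ j, 4 * ((#(fib S j) / 2 - if j ∈ F then 1 else 0) *
        (#(fib S j) - (#(fib S j) / 2 - if j ∈ F then 1 else 0))) +
        (if #(fib S j) % 2 = 1 then 1 else 0) + 4 * (if j ∈ F then 1 else 0) = #(fib S j) ^ 2 := by
      intro j
      by_cases h : j ∈ F
      · obtain ⟨h1, h2⟩ := hF' j h
        obtain ⟨a, ha⟩ : ∃ a, #(fib S j) = 2 * a + 2 := ⟨#(fib S j) / 2 - 1, by omega⟩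
        have e1 : (2 * a + 2) / 2 - 1 = a := by omega
        have e2 : 2 * a + 2 - a = a + 2 := by omega
        have e3 : ¬((2 * a + 2) % 2 = 1) := by omega
        rw [ha, if_pos h, e1, e2, if_neg e3]; ring
      · rw [if_neg h]
        rcases Nat.even_or_odd' #(fib S j) with ⟨a, ha | ha⟩
        · have e1 : 2 * a / 2 - 0 = a := by omega
          have e2 : 2 * a - a = a := by omega
          have e3 : ¬((2 * a) % 2 = 1) := by omega
          rw [ha, e1, e2, if_neg e3]; ring
        · have e1 : (2 * a + 1) / 2 - 0 = a := by omega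
          have e2 : 2 * a + 1 - a = a + 1 := by omega
          have e3 : (2 * a + 1) % 2 = 1 := by omega
          rw [ha, e1, e2, if_pos e3]; ring
    have h := sum_congr rfl fun j (_ : j ∈ univ) => key j
    rw [sum_add_distrib, sum_add_distrib, ← mul_sum, ← mul_sum, ← card_filter, sum_ite_mem,
      univ_inter, ← card_eq_sum_ones] at h
    omega
  · rw [sum_range_succ, sum_range_one]
    have e1 : ({j | 0 < #(fib S j) - 2 * (#(fib S j) / 2 - if j ∈ F then 1 else 0)} :
        Finset (ZMod p)) = ({j | #(fib S j) % 2 = 1} : Finset (ZMod p)) ∪ F := by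
      ext j
      simp only [mem_filter, mem_univ, true_and, mem_union]
      by_cases h : j ∈ F
      · have := hF' j h; simp only [h, if_true, or_true, iff_true]; omega
      · simp only [h, if_false, or_false]; omega
    have e2 : ({j | 1 < #(fib S j) - 2 * (#(fib S j) / 2 - if j ∈ F then 1 else 0)} :
        Finset (ZMod p)) = F := by
      ext j
      simp only [mem_filter, mem_univ, true_and]
      by_cases h : j ∈ F
      · have := hF' j h; simp only [h, if_true, iff_true]; omega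
      · simp only [h, if_false, iff_false]; omega
    rw [e1, e2, card_union_of_disjoint]
    · exact hval
    · rw [disjoint_right]
      intro j hj hj'
      have := hF' j hj
      have := (mem_filter.mp hj').2
      omega

lemma exists_top {α : Type*} [DecidableEq α] (U : Finset α) (n : α → ℕ) (β : ℕ) (hβ : β ≤ #U) :
    ∃ B ⊆ U, #B = β ∧ ∀ x ∈ B, ∀ y ∈ U \ B, n y ≤ n x := by
  induction β with
  | zero => exact ⟨∅, by simp, rfl, by simp⟩
  | succ b ih =>
    obtain ⟨B, hB, hc, hn⟩ := ih (by omega)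
    have hne : (U \ B).Nonempty := by
      rw [← card_pos, card_sdiff_of_subset hB]; omega
    obtain ⟨x, hx, hmax⟩ := exists_max_image (U \ B) n hne
    have hx' := mem_sdiff.mp hx
    refine ⟨insert x B, insert_subset hx'.1 hB, by rw [card_insert_of_notMem hx'.2, hc], ?_⟩
    intro z hz y hy
    have hy' : y ∈ U \ B := by
      rw [mem_sdiff] at hy ⊢
      exact ⟨hy.1, fun h => hy.2 (mem_insert_of_mem h)⟩
    rcases mem_insert.mp hz with rfl | hz
    · exact hmax y hy'
    · exact hn z hz y hy'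

lemma sum_supp (p : ℕ) [NeZero p] (n : ZMod p → ℕ) :
    ∑ j ∈ ({j | n j ≠ 0} : Finset (ZMod p)), n j = ∑ j, n j :=
  sum_filter_ne_zero _

lemma sum_pred_filter {α : Type*} (B : Finset α) (n : α → ℕ) :
    ∑ j ∈ B, n j ≤ ∑ j ∈ B with 2 ≤ n j, 1 * (n j - 1) + #B := by
  rw [sum_filter, card_eq_sum_ones, ← sum_add_distrib]
  exact sum_le_sum fun j _ => by split_ifs <;> omega

lemma stratB3 (p : ℕ) [hp : Fact p.Prime] (S : Finset (ZMod p × ZMod p)) (hS : #S + 1 = 2 * p)
    (M : ℕ) (hM3 : 3 ≤ M) (hM : 8 * M ≤ 3 * p + 7) (hn : ∀ j, #(fib S j) ≤ M)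
    (hm : #{j | #(fib S j) ≠ 0} ≤ M) : HasZS p S := by
  classical
  have hU := sum_supp p fun j => #(fib S j)
  rw [← card_fib] at hU
  have hUp : #{j | #(fib S j) ≠ 0} ≤ p := (card_le_univ _).trans (ZMod.card p).le
  have h1 := sum_pred_filter ({j | #(fib S j) ≠ 0} : Finset (ZMod p)) fun j => #(fib S j)
  have h2 := card_filter_le ({j | #(fib S j) ≠ 0} : Finset (ZMod p)) fun j => 2 ≤ #(fib S j)
  apply boxB p S hS (({j | #(fib S j) ≠ 0} : Finset (ZMod p)).filter fun j => 2 ≤ #(fib S j))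
    1 (M - 2) 2
  · intro j hj; exact (mem_filter.mp hj).2
  · intro j _; have := hn j; omega
  · intro j hj
    simp only [mem_filter, mem_univ, true_and] at hj
    omega
  · omega
  · omega

lemma stratB4 (p : ℕ) [hp : Fact p.Prime] (S : Finset (ZMod p × ZMod p)) (hS : #S + 1 = 2 * p)
    (hp' : p = 11 ∨ p = 13) (hn : ∀ j, #(fib S j) ≤ 6)
    (hm : #{j | #(fib S j) ≠ 0} ≤ 6) : HasZS p S := by
  classical
  have hU := sum_supp p fun j => #(fib S j)
  rw [← card_fib] at hU
  set U : Finset (ZMod p) := {j | #(fib S j) ≠ 0} with hUdef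
  have h6 : ∑ j ∈ U, #(fib S j) ≤ #U * 6 := sum_le_card_nsmul _ _ _ fun j _ => hn j
  obtain ⟨B, hB, hc, htop⟩ := exists_top U (fun j => #(fib S j)) ((p - 3) / 2) (by omega)
  have hsplit := sum_sdiff (f := fun j => #(fib S j)) hB
  have hcs := card_sdiff_of_subset hB
  have hy : ∀ y ∈ U \ B, #B * #(fib S y) ≤ ∑ j ∈ B, #(fib S j) := fun y hy =>
    card_nsmul_le_sum _ _ _ fun x hx => htop x hx y hy
  have hy2 : #B * ∑ y ∈ U \ B, #(fib S y) ≤ #(U \ B) * ∑ j ∈ B, #(fib S j) := by
    rw [mul_sum]; exact sum_le_card_nsmul _ _ _ hy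
  have h1 := sum_pred_filter B fun j => #(fib S j)
  have h2 := card_filter_le B fun j => 2 ≤ #(fib S j)
  apply boxB p S hS (B.filter fun j => 2 ≤ #(fib S j)) 1 4 2
  · intro j hj; exact (mem_filter.mp hj).2
  · intro j _; have := hn j; omega
  · intro j hj
    by_cases hjB : j ∈ B
    · simp only [mem_filter, hjB, true_and] at hj; omega
    · by_cases hjU : j ∈ U
      · have h3 := hy j (mem_sdiff.mpr ⟨hjU, hjB⟩)
        have h4 : #(fib S j) ≤ ∑ y ∈ U \ B, #(fib S y) :=
          single_le_sum (f := fun y => #(fib S y)) (fun _ _ => Nat.zero_le _)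
            (mem_sdiff.mpr ⟨hjU, hjB⟩)
        rcases hp' with h | h
        · have : #B = 4 := by omega
          rw [this] at h3; omega
        · have : #B = 5 := by omega
          rw [this] at h3; omega
      · simp only [hUdef, mem_filter, mem_univ, true_and, not_not] at hjU; omega
  · rcases hp' with h | h
    · have h4 : #B = 4 := by omega
      have h5 : #(U \ B) * ∑ j ∈ B, #(fib S j) ≤ 2 * ∑ j ∈ B, #(fib S j) :=
        Nat.mul_le_mul_right _ (by omega)
      rw [h4] at hy2; omega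
    · have h4 : #B = 5 := by omega
      have h5 : #(U \ B) * ∑ j ∈ B, #(fib S j) ≤ 1 * ∑ j ∈ B, #(fib S j) :=
        Nat.mul_le_mul_right _ (by omega)
      rw [h4] at hy2; omega
  · omega

lemma small_of_sq (p : ℕ) (hp : p.Prime) (h17 : 17 ≤ p) (x : ℕ) (hx : x ^ 2 / 4 + 1 < p) :
    x ≤ (3 * p + 7) / 8 := by
  by_contra hcon
  have h1 : ((3 * p + 7) / 8 + 1) ^ 2 ≤ x ^ 2 := Nat.pow_le_pow_left (by omega) 2
  by_cases h29 : 29 ≤ p
  · have h2 : 3 * p ≤ 8 * ((3 * p + 7) / 8 + 1) := by omega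
    have h3 : x ^ 2 < 4 * p := by omega
    nlinarith
  · have h4 : ((3 * p + 7) / 8 + 1) ^ 2 / 4 ≤ x ^ 2 / 4 := Nat.div_le_div_right h1
    have h5 : p < 29 := by omega
    interval_cases p <;> first | omega | exact absurd hp (by norm_num)

lemma prime_small (p : ℕ) (h1 : p.Prime) (h11 : 11 ≤ p) (h5 : p < 17) : p = 11 ∨ p = 13 := by
  interval_cases p <;> first | omega | exact absurd h1 (by norm_num)

lemma energy (p : ℕ) [hp : Fact p.Prime] (h11 : 11 ≤ p) (S : Finset (ZMod p × ZMod p))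
    (hS : #S + 1 = 2 * p) (hN : 6 * p ≤ ∑ j, #(fib S j) ^ 2 + 10)
    (hn : ∀ j, #(fib S j) + 2 ≤ p) : HasZS p S := by
  classical
  set o := #{j | #(fib S j) % 2 = 1} with ho
  set v := #{j | #(fib S j) ≠ 0 ∧ #(fib S j) % 2 = 0} with hv
  have hop : o ≤ p := (card_le_univ _).trans (ZMod.card p).le
  have hodd : o % 2 = 1 := by
    have h1 := card_fib S
    have h2 : ∑ j, #(fib S j) = ∑ j, (2 * (#(fib S j) / 2) + if #(fib S j) % 2 = 1 then 1 else 0) :=
      sum_congr rfl fun j _ => by split_ifs <;> omega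
    rw [sum_add_distrib, ← mul_sum, ← card_filter] at h2
    omega
  by_cases hA : (2 * p - 3 - o) / 4 ≤ v
  · apply stratA p S hS hN _ hA (by omega)
    have h1 := sq_div_ge 3 (o + (2 * p - 3 - o) / 4)
    have h2 := sq_div_ge 2 ((2 * p - 3 - o) / 4)
    rw [← ho]
    omega
  by_cases hA2 : p ≤ (o + v) ^ 2 / 4 + 1
  · exact stratA p S hS hN v le_rfl (by omega) (by rw [← ho]; omega)
  have hm : #{j | #(fib S j) ≠ 0} = o + v := by
    rw [ho, hv, ← card_union_of_disjoint]
    · congr 1; ext j; simp only [mem_filter, mem_univ, true_and, mem_union]; omega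
    · rw [disjoint_filter]; intro j _ h1 h2; omega
  obtain ⟨j1, -, hj1⟩ := exists_max_image univ (fun j => #(fib S j)) univ_nonempty
  obtain ⟨j2, hj2, hj2'⟩ := exists_max_image (univ.erase j1) (fun j => #(fib S j))
    (by rw [← card_pos, card_erase_of_mem (mem_univ _), card_univ, ZMod.card]; omega)
  have hne : j2 ≠ j1 := ne_of_mem_erase hj2
  by_cases hB1 : p + 1 ≤ #(fib S j1) + #(fib S j2)
  · have g1 := hn j1
    have g2 := hn j2
    apply boxB p S hS {j1, j2} 1 (p - 4) 1
    · intro j hj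
      rcases mem_insert.mp hj with rfl | hj
      · omega
      · rw [mem_singleton.mp hj]; omega
    · intro j _; have := hn j; omega
    · intro j hj
      simp only [mem_insert, mem_singleton, not_or] at hj
      have h1 := hj2' j (mem_erase.mpr ⟨hj.1, mem_univ _⟩)
      have h2 := hj1 j2 (mem_univ _)
      have h3 : ∑ x ∈ ({j, j1, j2} : Finset (ZMod p)), #(fib S x) ≤ ∑ x, #(fib S x) :=
        sum_le_sum_of_subset (subset_univ _)
      rw [sum_insert (by simp [hj.1, hj.2]), sum_pair hne.symm, ← card_fib] at h3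
      omega
    · rw [sum_pair hne.symm]; omega
    · rw [card_pair hne.symm]; omega
  by_cases hB2 : p ≤ #(fib S j1) ^ 2 / 4 + 1
  · have g1 := hn j1
    apply boxB p S hS {j1} (#(fib S j1) / 2) (p - 2 * (#(fib S j1) / 2)) 1
    · intro j hj; rw [mem_singleton.mp hj]; omega
    · intro j _; have := hn j; omega
    · intro j hj
      have h1 := hj2' j (mem_erase.mpr ⟨by simpa using hj, mem_univ _⟩)
      omega
    · rw [sum_singleton]
      have := half_mul #(fib S j1) (#(fib S j1) / 2) le_rfl (by omega)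
      omega
    · rw [card_singleton]; omega
  have hsq : ∀ j, #(fib S j) ^ 2 / 4 + 1 < p := by
    intro j
    have h1 : #(fib S j) ^ 2 ≤ #(fib S j1) ^ 2 := Nat.pow_le_pow_left (hj1 j (mem_univ _)) 2
    omega
  by_cases h17 : 17 ≤ p
  · exact stratB3 p S hS ((3 * p + 7) / 8) (by omega) (by omega)
      (fun j => small_of_sq p hp.out h17 _ (hsq j))
      (small_of_sq p hp.out h17 _ (by rw [hm]; omega))
  · have hp' : p = 11 ∨ p = 13 := prime_small p hp.out h11 (by omega)
    have h7 : ∀ x, x ^ 2 / 4 + 1 < p → x ≤ 6 := by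
      intro x hx
      by_contra hcon
      have : 7 ^ 2 ≤ x ^ 2 := Nat.pow_le_pow_left (by omega) 2
      omega
    exact stratB4 p S hS hp' (fun j => h7 _ (hsq j)) (h7 _ (by rw [hm]; omega))

end Pool.Agent.Lib.MP_1c09d5_co
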