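import Mathlib

set_option autoImplicit false

namespace Pool.Agent.Lib.MP_1c09d5_co

open Finset MvPolynomial

lemma coeff_eq_zero_of_vanish {σ F : Type*} [Finite σ] [Field F] (f : MvPolynomial σ F)
    (c : σ →₀ ℕ) (hdeg : f.totalDegree ≤ c.degree) (S : σ → Finset F) (hS : ∀ i, c i < #(S i))
    (hv : ∀ x : σ → F, (∀ i, x i ∈ S i) → eval x f = 0) : f.coeff c = 0 := by
  by_contra h
  have h2 : c.degree ≤ f.totalDegree := le_totalDegree (mem_support_iff.mpr h)
  obtain ⟨x, hx, hx'⟩ := combinatorial_nullstellensatz_exists_eval_nonzero f c h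
    (le_antisymm hdeg h2) S hS
  exact hx' (hv x hx)

lemma totalDegree_prod_sub {σ F ι : Type*} [Field F] (s : MvPolynomial σ F)
    (hs : s.totalDegree ≤ 1) (u : ι → F) (T : Finset ι) :
    (∏ k ∈ T, (s - C (u k)) - s ^ #T).totalDegree ≤ #T - 1 := by
  classical
  induction T using Finset.induction_on with
  | empty => simp
  | insert a T ha ih =>
    rw [prod_insert ha, card_insert_of_notMem ha]
    have e : (s - C (u a)) * ∏ k ∈ T, (s - C (u k)) - s ^ (#T + 1) =
        (s - C (u a)) * (∏ k ∈ T, (s - C (u k)) - s ^ #T) - C (u a) * s ^ #T := by ring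
    rw [e]
    refine (totalDegree_sub _ _).trans (max_le ?_ ?_)
    · rcases T.eq_empty_or_nonempty with rfl | hT
      · simp
      · have h1 := hT.card_pos
        have h2 := (totalDegree_sub_C_le s (u a)).trans hs
        refine (totalDegree_mul _ _).trans ?_
        omega
    · refine (totalDegree_mul _ _).trans ?_
      have := totalDegree_pow s #T
      rw [totalDegree_C]
      have h3 : #T * s.totalDegree ≤ #T * 1 := Nat.mul_le_mul_left _ hs
      omega

lemma coeff_top {σ F ι : Type*} [Field F] (V s : MvPolynomial σ F) (D : ℕ)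
    (hV : V.totalDegree ≤ D) (hs : s.totalDegree ≤ 1) (u : ι → F) (T : Finset ι) (c : σ →₀ ℕ)
    (hc : c.degree = D + #T) :
    (V * ∏ k ∈ T, (s - C (u k))).coeff c = (V * s ^ #T).coeff c := by
  rcases T.eq_empty_or_nonempty with rfl | hT
  · simp
  rw [← sub_eq_zero, ← coeff_sub, ← mul_sub]
  apply coeff_eq_zero_of_totalDegree_lt
  have h1 := hT.card_pos
  have h2 := totalDegree_prod_sub s hs u T
  have h3 := totalDegree_mul V (∏ k ∈ T, (s - C (u k)) - s ^ #T)
  have h4 : ∑ i ∈ c.support, c i = c.degree := rfl
  omega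

lemma totalDegree_prod_le {σ F ι : Type*} [Field F] (s : MvPolynomial σ F)
    (hs : s.totalDegree ≤ 1) (u : ι → F) (T : Finset ι) :
    (∏ k ∈ T, (s - C (u k))).totalDegree ≤ #T := by
  have h1 := totalDegree_finsetProd T (fun k => s - C (u k))
  have h2 : ∑ k ∈ T, (s - C (u k)).totalDegree ≤ ∑ _k ∈ T, 1 :=
    sum_le_sum fun k _ => (totalDegree_sub_C_le s (u k)).trans hs
  rw [← card_eq_sum_ones] at h2
  exact h1.trans h2

lemma hermite (r : ℕ) (hr : 0 < r) (N : ℕ) : ∑ i ∈ range r, (N + i) / r = N := by
  induction N with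
  | zero => exact sum_eq_zero fun i hi => by simpa using Or.inr (mem_range.mp hi)
  | succ n ih =>
    have h1 := sum_range_succ (fun i => (n + i) / r) r
    have h2 := sum_range_succ' (fun i => (n + i) / r) r
    have h3 : (n + r) / r = n / r + 1 := Nat.add_div_right n hr
    have h4 : ∑ i ∈ range r, (n + 1 + i) / r = ∑ i ∈ range r, (n + (i + 1)) / r :=
      sum_congr rfl fun i _ => by congr 1; ring
    simp only [add_zero] at h1 h2
    omega

lemma sum_le_of_injective {r : ℕ} (a : Fin r → ℕ) (ha : Function.Injective a) :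
    ∑ i : Fin r, (i : ℕ) ≤ ∑ i, a i := by
  have h := Finset.sum_range_le_sum (s := univ.image fun i => (a i : ℤ)) (c := 0)
    (fun x hx => by obtain ⟨i, _, rfl⟩ := mem_image.mp hx; positivity)
  have hinj : Function.Injective fun i => (a i : ℤ) := fun i j h => ha (Int.ofNat_inj.mp h)
  rw [card_image_of_injective _ hinj, sum_image (fun i _ j _ h => hinj h)] at h
  simp only [card_univ, Fintype.card_fin, zero_add] at h
  rw [Fin.sum_univ_eq_sum_range (fun i => i) r]
  zify
  exact h

/-- Sums of r distinct elements of A. -/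
def SS {G : Type*} [AddCommMonoid G] [DecidableEq G] (A : Finset G) (r : ℕ) : Finset G :=
  (A.powersetCard r).image fun B => ∑ x ∈ B, x

lemma mem_SS {G : Type*} [AddCommMonoid G] [DecidableEq G] {A : Finset G} {r : ℕ} {c : G} :
    c ∈ SS A r ↔ ∃ B ⊆ A, #B = r ∧ ∑ x ∈ B, x = c := by
  simp [SS, and_assoc]

lemma SS_nonempty {G : Type*} [AddCommMonoid G] [DecidableEq G] {A : Finset G} {r : ℕ}
    (h : r ≤ #A) : (SS A r).Nonempty := by
  obtain ⟨B, hB, hc⟩ := exists_subset_card_eq h
  exact ⟨_, mem_SS.mpr ⟨B, hB, hc, rfl⟩⟩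

/-- The Dias da Silva and Hamidoune theorem. -/
theorem ddsh (p : ℕ) [hp : Fact p.Prime] (A : Finset (ZMod p)) (r : ℕ) (hr : r ≤ #A) :
    min p (r * (#A - r) + 1) ≤ #(SS A r) := by
  by_contra hcon
  rw [not_le, lt_min_iff] at hcon
  obtain ⟨hNp, hN⟩ := hcon
  set N := #(SS A r) with hNdef
  have hN1 : 0 < N := (SS_nonempty hr).card_pos
  have hr0 : 0 < r := by
    rcases Nat.eq_zero_or_pos r with rfl | h
    · omega
    · exact h
  have hAp : #A ≤ p := by simpa using card_le_univ A
  let cf : Fin r → ℕ := fun i => i + (N + i) / r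
  let c : Fin r →₀ ℕ := Finsupp.equivFunOnFinite.symm cf
  have hc : ∀ i, c i = cf i := fun i => rfl
  set D := ∑ i : Fin r, (i : ℕ) with hD
  have hsum : ∑ i, cf i = D + N := by
    simp only [cf]
    rw [sum_add_distrib, Fin.sum_univ_eq_sum_range (fun i => (N + i) / r) r, hermite r hr0]
  have hdeg : c.degree = D + N := by rw [Finsupp.degree_eq_sum, ← hsum]; rfl
  have hlt : ∀ i, cf i < #A := by
    intro i
    have h1 := i.2
    have h2 : (N + i) / r < #A - r + 1 := by
      rw [Nat.div_lt_iff_lt_mul hr0]; nlinarith
    simp only [cf]; omega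
  have hmono : StrictMono cf := by
    intro i j hij
    have h1 : (i : ℕ) < j := hij
    have h2 : (N + i) / r ≤ (N + j) / r := Nat.div_le_div_right (by omega)
    simp only [cf]; omega
  have hcast : ∀ a b : ℕ, a < p → b < p → (a : ZMod p) = b → a = b := fun a b ha hb h =>
    CharP.natCast_injOn_Iio (ZMod p) p ha hb h
  let V : MvPolynomial (Fin r) (ZMod p) := ∏ i, ∏ j ∈ Iio i, (X i - X j)
  let s : MvPolynomial (Fin r) (ZMod p) := ∑ i, X i
  have hV : V.totalDegree ≤ D := by
    refine (totalDegree_finsetProd _ _).trans (sum_le_sum fun i _ => ?_)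
    refine (totalDegree_finsetProd _ _).trans ?_
    calc ∑ j ∈ Iio i, (X i - X j : MvPolynomial (Fin r) (ZMod p)).totalDegree ≤ ∑ _j ∈ Iio i, 1 :=
          sum_le_sum fun j _ => (totalDegree_sub _ _).trans (by simp)
      _ = i := by simp
  have hs : s.totalDegree ≤ 1 := totalDegree_finsetSum_le fun i _ => by simp
  have hVz : ∀ x : Fin r → ZMod p, ¬Function.Injective x → eval x V = 0 := by
    intro x hx
    simp only [Function.Injective, not_forall] at hx
    obtain ⟨i, j, hij, hne⟩ := hx
    simp only [V, map_prod, map_sub, eval_X]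
    rcases lt_or_gt_of_ne hne with h | h
    · exact prod_eq_zero (mem_univ j) (prod_eq_zero (mem_Iio.mpr h) (by rw [hij, sub_self]))
    · exact prod_eq_zero (mem_univ i) (prod_eq_zero (mem_Iio.mpr h) (by rw [hij, sub_self]))
  have h1 : (V * ∏ e ∈ SS A r, (s - C e)).coeff c = 0 := by
    apply coeff_eq_zero_of_vanish _ c _ (fun _ => A) hlt
    · intro x hx
      by_cases hinj : Function.Injective x
      · rw [map_mul]
        apply mul_eq_zero_of_right
        rw [map_prod]
        refine prod_eq_zero (i := ∑ i, x i) (mem_SS.mpr ⟨univ.image x, ?_, ?_, ?_⟩) (by simp [s])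
        · intro y hy; obtain ⟨i, _, rfl⟩ := mem_image.mp hy; exact hx i
        · rw [card_image_of_injective _ hinj]; simp
        · rw [sum_image fun i _ j _ h => hinj h]
      · rw [map_mul, hVz x hinj, zero_mul]
    · rw [hdeg]
      exact (totalDegree_mul _ _).trans (add_le_add hV (totalDegree_prod_le s hs (fun e => e) _))
  let g : MvPolynomial (Fin r) (ZMod p) := V * ∏ u ∈ range N, (s - C ((D + u : ℕ) : ZMod p))
  let W : MvPolynomial (Fin r) (ZMod p) := ∏ i, ∏ a ∈ range (cf i), (X i - C (a : ZMod p))
  let x0 : Fin r → ZMod p := fun i => (cf i : ZMod p)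
  have hg : g.coeff c = 0 := by
    have e1 := coeff_top V s D hV hs (fun e => e) (SS A r) c hdeg
    have e2 := coeff_top V s D hV hs (fun u : ℕ => ((D + u : ℕ) : ZMod p)) (range N) c
      (by rw [hdeg, card_range])
    rw [card_range] at e2
    simp only [g]
    rw [e2, ← e1, h1]
  have hWc : W.coeff c = 1 := by
    let m : MonomialOrder (Fin r) := MonomialOrder.degLex
    have hm : ∀ i, m.Monic (∏ a ∈ range (cf i), (X i - C (a : ZMod p))) := fun i =>
      MonomialOrder.Monic.prod fun a _ => m.monic_X_sub_C i _
    have hmW : m.Monic W := MonomialOrder.Monic.prod fun i _ => hm i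
    have hd : m.degree W = c := by
      simp only [W]
      rw [MonomialOrder.degree_prod_of_regular (fun i _ => by rw [hm i]; exact isRegular_one)]
      have : ∀ i, m.degree (∏ a ∈ range (cf i), (X i - C (a : ZMod p))) =
          Finsupp.single i (cf i) := by
        intro i
        rw [MonomialOrder.degree_prod_of_regular
          (fun a _ => by rw [m.monic_X_sub_C]; exact isRegular_one)]
        rw [sum_congr rfl fun (a : ℕ) _ => m.degree_X_sub_C i (a : ZMod p)]
        simp
      simp only [this]
      ext j
      simp [hc, Finsupp.finsetSum_apply, Finsupp.single_apply]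
    rw [← hd]; exact hmW.coeff_degree
  have hWdeg : W.totalDegree ≤ D + N := by
    rw [← hsum]
    refine (totalDegree_finsetProd _ _).trans (sum_le_sum fun i _ => ?_)
    simpa using totalDegree_prod_le (X i : MvPolynomial (Fin r) (ZMod p)) (by simp)
      (fun a : ℕ => (a : ZMod p)) (range (cf i))
  have hW0 : eval x0 W ≠ 0 := by
    simp only [W, map_prod, map_sub, eval_X, eval_C, x0]
    refine prod_ne_zero_iff.mpr fun i _ => prod_ne_zero_iff.mpr fun a ha => ?_
    rw [sub_ne_zero]
    have h2 := mem_range.mp ha
    have h3 := hlt i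
    intro h
    have := hcast _ _ (by omega) (by omega) h
    omega
  have hg0 : eval x0 g ≠ 0 := by
    simp only [g, V, s, map_mul, map_prod, map_sub, map_sum, eval_X, eval_C, x0]
    refine mul_ne_zero ?_ ?_
    · refine prod_ne_zero_iff.mpr fun i _ => prod_ne_zero_iff.mpr fun j hj => ?_
      rw [sub_ne_zero]
      have h2 := hmono (mem_Iio.mp hj)
      have h3 := hlt i
      intro h
      have := hcast _ _ (by omega) (by omega) h
      omega
    · refine prod_ne_zero_iff.mpr fun u hu => ?_
      have h2 := mem_range.mp hu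
      rw [← Nat.cast_sum, hsum]
      push_cast
      rw [add_sub_add_left_eq_sub, sub_ne_zero]
      intro h
      have := hcast _ _ (by omega) (by omega) h
      omega
  have h2 : (g - C (eval x0 g / eval x0 W) * W).coeff c = 0 := by
    apply coeff_eq_zero_of_vanish _ c _ (fun i => (range (cf i + 1)).image Nat.cast)
    · intro i
      rw [card_image_of_injOn, card_range, hc]
      · omega
      · intro a ha b hb h
        have h3 := hlt i
        have := mem_range.mp (mem_coe.mp ha)
        have := mem_range.mp (mem_coe.mp hb)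
        exact hcast _ _ (by omega) (by omega) h
    · intro x hx
      choose a ha hax using fun i => mem_image.mp (hx i)
      have ha' : ∀ i, a i ≤ cf i := fun i => Nat.lt_succ_iff.mp (mem_range.mp (ha i))
      by_cases hac : ∀ i, a i = cf i
      · have : x = x0 := funext fun i => by rw [← hax i, hac i]
        rw [this, map_sub, map_mul _ (C _) W, eval_C, div_mul_cancel₀ _ hW0, sub_self]
      · push Not at hac
        obtain ⟨i0, hi0⟩ := hac
        have hi0' : a i0 < cf i0 := lt_of_le_of_ne (ha' i0) hi0
        have hW : eval x W = 0 := by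
          simp only [W, map_prod, map_sub, eval_X, eval_C]
          exact prod_eq_zero (mem_univ i0) (prod_eq_zero (mem_range.mpr hi0')
            (by rw [hax i0, sub_self]))
        have hgx : eval x g = 0 := by
          by_cases hinj : Function.Injective x
          · have hainj : Function.Injective a := fun i j h => hinj (by rw [← hax i, ← hax j, h])
            have h3 := sum_le_of_injective a hainj
            have h4 : ∑ i, a i < ∑ i, cf i :=
              sum_lt_sum (fun i _ => ha' i) ⟨i0, mem_univ _, hi0'⟩
            simp only [g]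
            rw [map_mul]
            apply mul_eq_zero_of_right
            rw [map_prod]
            have h5 : ∑ i, a i - D < N := by rw [hsum] at h4; omega
            refine prod_eq_zero (i := ∑ i, a i - D) (mem_range.mpr h5) ?_
            have : D + (∑ i, a i - D) = ∑ i, a i := by omega
            rw [this]
            simp [s, hax]
          · simp only [g]; rw [map_mul, hVz x hinj, zero_mul]
        rw [map_sub, map_mul _ (C _) W, hW, hgx]; simp
    · rw [hdeg]
      refine (totalDegree_sub _ _).trans (max_le ?_ ?_)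
      · refine (totalDegree_mul _ _).trans (add_le_add hV ?_)
        simpa using totalDegree_prod_le s hs (fun u : ℕ => ((D + u : ℕ) : ZMod p)) (range N)
      · refine (totalDegree_mul _ _).trans ?_
        rw [totalDegree_C]; omega
  rw [coeff_sub, hg, coeff_C_mul, hWc, mul_one, zero_sub, neg_eq_zero] at h2
  exact div_ne_zero hg0 hW0 h2

end Pool.Agent.Lib.MP_1c09d5_co
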