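import Pool.Agent.Lib.MP_1c09d5_co.DdSH

set_option autoImplicit false

namespace Pool.Agent.Lib.MP_1c09d5_co

open Finset
open scoped Pointwise

lemma family_aux (p : ℕ) [hp : Fact p.Prime] {ι : Type*} (A : ι → Finset (ZMod p)) (r : ι → ℕ)
    (I : Finset ι) (hr : ∀ i ∈ I, r i ≤ #(A i)) :
    ∃ R : Finset (ZMod p), min p (∑ i ∈ I, r i * (#(A i) - r i) + 1) ≤ #R ∧
      ∀ c ∈ R, ∃ B : ι → Finset (ZMod p), (∀ i ∈ I, B i ⊆ A i ∧ #(B i) = r i) ∧
        ∑ i ∈ I, ∑ x ∈ B i, x = c := by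
  classical
  induction I using Finset.induction_on with
  | empty => exact ⟨{0}, by simp, fun c hc => ⟨fun _ => ∅, by simp, by simpa using (mem_singleton.mp hc).symm⟩⟩
  | insert a I ha ih =>
    obtain ⟨R, hR, hR'⟩ := ih fun i hi => hr i (mem_insert_of_mem hi)
    have hp0 := hp.out.pos
    have hra := hr a (mem_insert_self a I)
    have h1 := ddsh p (A a) (r a) hra
    have hRne : R.Nonempty := card_pos.mp (by omega)
    have h2 := ZMod.cauchy_davenport hp.out (SS_nonempty hra) hRne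
    refine ⟨SS (A a) (r a) + R, ?_, ?_⟩
    · rw [sum_insert ha]; omega
    · intro c hc
      obtain ⟨u, hu, v, hv, rfl⟩ := mem_add.mp hc
      obtain ⟨B0, hB0, hB0c, rfl⟩ := mem_SS.mp hu
      obtain ⟨B, hB, rfl⟩ := hR' v hv
      refine ⟨Function.update B a B0, ?_, ?_⟩
      · intro i hi
        rcases mem_insert.mp hi with rfl | hi
        · simp [hB0, hB0c]
        · have : i ≠ a := fun h => ha (h ▸ hi)
          rw [Function.update_of_ne this]; exact hB i hi
      · rw [sum_insert ha, Function.update_self]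
        congr 1
        refine sum_congr rfl fun i hi => ?_
        have : i ≠ a := fun h => ha (h ▸ hi)
        rw [Function.update_of_ne this]

lemma family (p : ℕ) [hp : Fact p.Prime] {ι : Type*} (A : ι → Finset (ZMod p)) (r : ι → ℕ)
    (I : Finset ι) (hr : ∀ i ∈ I, r i ≤ #(A i)) (h : p ≤ ∑ i ∈ I, r i * (#(A i) - r i) + 1)
    (c : ZMod p) : ∃ B : ι → Finset (ZMod p), (∀ i ∈ I, B i ⊆ A i ∧ #(B i) = r i) ∧
        ∑ i ∈ I, ∑ x ∈ B i, x = c := by
  obtain ⟨R, hR, hR'⟩ := family_aux p A r I hr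
  have : R = univ := by
    apply eq_univ_of_card
    have := card_le_univ R
    rw [ZMod.card] at this ⊢
    omega
  exact hR' c (this ▸ mem_univ c)

lemma ivt {ι : Type*} (lo hi : ι → ℕ) (h : ∀ i, lo i ≤ hi i) (I : Finset ι) :
    ∀ R, ∑ i ∈ I, lo i ≤ R → R ≤ ∑ i ∈ I, hi i →
      ∃ r : ι → ℕ, (∀ i, lo i ≤ r i ∧ r i ≤ hi i) ∧ ∑ i ∈ I, r i = R := by
  classical
  induction I using Finset.induction_on with
  | empty => intro R _ h2; exact ⟨lo, fun i => ⟨le_rfl, h i⟩, by simp at h2 ⊢; omega⟩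
  | insert a I ha ih =>
    intro R h1 h2
    rw [sum_insert ha] at h1 h2
    have h3 : ∑ i ∈ I, lo i ≤ ∑ i ∈ I, hi i := sum_le_sum fun i _ => h i
    have h4 := h a
    obtain ⟨r, hr, hs⟩ := ih (min (R - lo a) (∑ i ∈ I, hi i)) (by omega) (by omega)
    refine ⟨Function.update r a (R - min (R - lo a) (∑ i ∈ I, hi i)), ?_, ?_⟩
    · intro i
      by_cases hi : i = a
      · subst hi; rw [Function.update_self]; omega
      · rw [Function.update_of_ne hi]; exact hr i
    · rw [sum_insert ha, Function.update_self]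
      have : ∑ i ∈ I, Function.update r a (R - min (R - lo a) (∑ i ∈ I, hi i)) i = ∑ i ∈ I, r i :=
        sum_congr rfl fun i hi => Function.update_of_ne (ne_of_mem_of_not_mem hi ha) _ _
      rw [this, hs]; omega

lemma half_mul (a r : ℕ) (h1 : a / 2 ≤ r) (h2 : r ≤ (a + 1) / 2) : a ^ 2 / 4 ≤ r * (a - r) := by
  rcases Nat.even_or_odd' a with ⟨k, rfl | rfl⟩
  · have : r = k := by omega
    subst this
    have : 2 * r - r = r := by omega
    rw [this]
    have : (2 * r) ^ 2 = 4 * (r * r) := by ring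
    omega
  · have e : (2 * k + 1) ^ 2 = 4 * (k * (k + 1)) + 1 := by ring
    have : r = k ∨ r = k + 1 := by omega
    rcases this with rfl | rfl
    · have : 2 * r + 1 - r = r + 1 := by omega
      rw [this]; omega
    · have : 2 * k + 1 - (k + 1) = k := by omega
      rw [this, mul_comm (k + 1) k]; omega

lemma sum_layers {α : Type*} [Fintype α] (t : α → ℕ) (τ : ℕ) (ht : ∀ j, t j ≤ τ) :
    ∑ i ∈ range τ, #{j | i < t j} = ∑ j, t j := by
  simp only [card_filter]
  rw [sum_comm]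
  refine sum_congr rfl fun j _ => ?_
  rw [← card_filter]
  have : {i ∈ range τ | i < t j} = range (t j) := by
    ext i; have := ht j; simp; omega
  rw [this, card_range]

lemma layers (p : ℕ) [hp : Fact p.Prime] (t : ZMod p → ℕ) (τ R : ℕ) (ht : ∀ j, t j ≤ τ)
    (hR : ∑ j, t j + 1 = 2 * R) (hval : p ≤ ∑ i ∈ range τ, #{j | i < t j} ^ 2 / 4 + 1)
    (c : ZMod p) : ∃ s : ZMod p → ℕ, (∀ j, s j ≤ t j) ∧ ∑ j, s j = R ∧
      ∑ j, (s j : ZMod p) * j = c := by
  classical
  let A : ℕ → Finset (ZMod p) := fun i => {j | i < t j}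
  have hL := sum_layers t τ ht
  have h1 : 2 * ∑ i ∈ range τ, #(A i) / 2 ≤ ∑ i ∈ range τ, #(A i) := by
    rw [mul_sum]; exact sum_le_sum fun i _ => by omega
  have h2 : ∑ i ∈ range τ, #(A i) ≤ 2 * ∑ i ∈ range τ, (#(A i) + 1) / 2 := by
    rw [mul_sum]; exact sum_le_sum fun i _ => by omega
  have hL' : ∑ i ∈ range τ, #(A i) = ∑ j, t j := hL
  obtain ⟨r, hr, hrs⟩ := ivt (fun i => #(A i) / 2) (fun i => (#(A i) + 1) / 2)
    (fun i => by omega) (range τ) R (by omega) (by omega)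
  obtain ⟨B, hB, hBc⟩ := family p A r (range τ) (fun i _ => by have := (hr i).2; omega)
    (hval.trans (Nat.add_le_add_right (sum_le_sum fun i _ => half_mul _ _ (hr i).1 (hr i).2) 1)) c
  refine ⟨fun j => #{i ∈ range τ | j ∈ B i}, fun j => ?_, ?_, ?_⟩
  · calc #{i ∈ range τ | j ∈ B i} ≤ #(range (t j)) := by
          apply card_le_card
          intro i hi
          obtain ⟨hi1, hi2⟩ := mem_filter.mp hi
          have := (hB i hi1).1 hi2
          simpa [A] using this
      _ = t j := card_range _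
  · simp only [card_filter]
    rw [sum_comm, ← hrs]
    refine sum_congr rfl fun i hi => ?_
    rw [← card_filter, ← (hB i hi).2]; simp
  · simp only [card_filter]
    rw [← hBc]
    push_cast
    simp only [sum_mul]
    rw [sum_comm]
    refine sum_congr rfl fun i _ => ?_
    simp

/-- The set S has p distinct elements with sum zero. -/
def HasZS (p : ℕ) (S : Finset (ZMod p × ZMod p)) : Prop :=
  ∃ T ⊆ S, #T = p ∧ ∑ x ∈ T, x = 0

/-- The fibre of S above j. -/
def fib {p : ℕ} [NeZero p] (S : Finset (ZMod p × ZMod p)) (j : ZMod p) : Finset (ZMod p) :=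
  {y | (j, y) ∈ S}

lemma sum_fib {p : ℕ} [NeZero p] {M : Type*} [AddCommMonoid M] (S : Finset (ZMod p × ZMod p))
    (f : ZMod p × ZMod p → M) : ∑ x ∈ S, f x = ∑ j, ∑ y ∈ fib S j, f (j, y) := by
  classical
  simp only [fib, sum_filter]
  rw [← Fintype.sum_prod_type' (fun j y => if (j, y) ∈ S then f (j, y) else 0)]
  simp

lemma card_fib {p : ℕ} [NeZero p] (S : Finset (ZMod p × ZMod p)) : #S = ∑ j, #(fib S j) := by
  rw [card_eq_sum_ones, sum_fib]; simp

lemma core (p : ℕ) [hp : Fact p.Prime] (S : Finset (ZMod p × ZMod p)) (k : ZMod p → ℕ)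
    (hk : ∀ j, k j ≤ #(fib S j)) (hsum : ∑ j, k j = p) (hz : ∑ j, (k j : ZMod p) * j = 0)
    (hsp : p ≤ ∑ j, k j * (#(fib S j) - k j) + 1) : HasZS p S := by
  classical
  obtain ⟨B, hB, hBc⟩ := family p (fib S) k univ (fun j _ => hk j) hsp 0
  have hf : ∀ j, fib (univ.filter fun x : ZMod p × ZMod p => x.2 ∈ B x.1) j = B j := by
    intro j; ext y; simp [fib]
  refine ⟨univ.filter fun x => x.2 ∈ B x.1, ?_, ?_, ?_⟩
  · intro x hx
    have := (hB x.1 (mem_univ _)).1 (mem_filter.mp hx).2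
    simpa [fib] using this
  · rw [card_fib]
    exact (sum_congr rfl fun j _ => by rw [hf, (hB j (mem_univ _)).2]).trans hsum
  · rw [sum_fib]
    simp only [hf]
    apply Prod.ext
    · rw [Prod.fst_sum, Prod.fst_zero, ← hz]
      refine sum_congr rfl fun j _ => ?_
      rw [Prod.fst_sum, ← (hB j (mem_univ _)).2]; simp
    · rw [Prod.snd_sum, Prod.snd_zero, ← hBc]
      refine sum_congr rfl fun j _ => ?_
      rw [Prod.snd_sum]

lemma box (p : ℕ) [hp : Fact p.Prime] (S : Finset (ZMod p × ZMod p)) (hS : #S + 1 = 2 * p)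
    (l : ZMod p → ℕ) (τ : ℕ) (hl : ∀ j, 2 * l j ≤ #(fib S j))
    (hτ : ∀ j, #(fib S j) ≤ 2 * l j + τ)
    (hsp : p ≤ ∑ j, l j * (#(fib S j) - l j) + 1)
    (hval : p ≤ ∑ i ∈ range τ, #{j | i < #(fib S j) - 2 * l j} ^ 2 / 4 + 1) : HasZS p S := by
  have h1 : ∑ j, (#(fib S j) - 2 * l j) + 2 * ∑ j, l j = #S := by
    rw [card_fib, mul_sum, ← sum_add_distrib]
    exact sum_congr rfl fun j _ => by have := hl j; omega
  obtain ⟨s, hs1, hs2, hs3⟩ := layers p (fun j => #(fib S j) - 2 * l j) τ (p - ∑ j, l j)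
    (fun j => by have := hτ j; omega) (by omega) hval (-∑ j, (l j : ZMod p) * j)
  refine core p S (fun j => l j + s j) (fun j => ?_) ?_ ?_ (hsp.trans ?_)
  · have := hs1 j; have := hl j; omega
  · rw [sum_add_distrib, hs2]; omega
  · push_cast
    simp only [add_mul]
    rw [sum_add_distrib, hs3]; ring
  · refine Nat.add_le_add_right (sum_le_sum fun j _ => ?_) 1
    have h2 := hs1 j
    have h3 := hl j
    obtain ⟨d, hd⟩ : ∃ d, #(fib S j) = 2 * l j + s j + d := ⟨#(fib S j) - 2 * l j - s j, by omega⟩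
    have e1 : #(fib S j) - l j = l j + s j + d := by omega
    have e2 : #(fib S j) - (l j + s j) = l j + d := by omega
    rw [e1, e2]; nlinarith [Nat.zero_le (s j * d)]

lemma sq_div_ge (w x : ℕ) : w * x ≤ x ^ 2 / 4 + w ^ 2 := by
  have : 4 * (w * x) ≤ x ^ 2 + 4 * w ^ 2 := by nlinarith [sq_nonneg ((x : ℤ) - 2 * w)]
  omega

lemma box_lin (p : ℕ) [hp : Fact p.Prime] (S : Finset (ZMod p × ZMod p)) (hS : #S + 1 = 2 * p)
    (l : ZMod p → ℕ) (τ w : ℕ) (hl : ∀ j, 2 * l j ≤ #(fib S j))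
    (hτ : ∀ j, #(fib S j) ≤ 2 * l j + τ)
    (hsp : p ≤ ∑ j, l j * (#(fib S j) - l j) + 1)
    (hval : p + w ^ 2 * τ + w * (2 * ∑ j, l j + 1) ≤ w * (2 * p) + 1) : HasZS p S := by
  apply box p S hS l τ hl hτ hsp
  have h1 : ∑ j, (#(fib S j) - 2 * l j) + 2 * ∑ j, l j = #S := by
    rw [card_fib, mul_sum, ← sum_add_distrib]
    exact sum_congr rfl fun j _ => by have := hl j; omega
  have h2 := sum_layers (fun j => #(fib S j) - 2 * l j) τ (fun j => by have := hτ j; omega)
  have h3 : ∑ i ∈ range τ, w * #{j | i < #(fib S j) - 2 * l j} ≤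
      ∑ i ∈ range τ, (#{j | i < #(fib S j) - 2 * l j} ^ 2 / 4 + w ^ 2) :=
    sum_le_sum fun i _ => sq_div_ge _ _
  rw [← mul_sum, h2, sum_add_distrib, sum_const, card_range, smul_eq_mul] at h3
  have h4 : w * (2 * p) = w * ∑ j, (#(fib S j) - 2 * l j) + w * (2 * ∑ j, l j + 1) := by
    rw [← hS, ← h1]; ring
  nlinarith

end Pool.Agent.Lib.MP_1c09d5_co
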