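import Pool.Agent.Lib.MP_1c09d5_co.Cases

set_option autoImplicit false

namespace Pool.Agent.Lib.MP_1c09d5_co

open Finset

lemma transport {p : ℕ} (S : Finset (ZMod p × ZMod p)) (e : ZMod p × ZMod p ≃+ ZMod p × ZMod p)
    (h : HasZS p (S.map e.toEquiv.toEmbedding)) : HasZS p S := by
  obtain ⟨T, hT, hc, hs⟩ := h
  refine ⟨T.map e.symm.toEquiv.toEmbedding, ?_, by rw [card_map, hc], ?_⟩
  · intro x hx
    obtain ⟨y, hy, rfl⟩ := mem_map.mp hx
    obtain ⟨z, hz, rfl⟩ := mem_map.mp (hT hy)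
    simpa using hz
  · rw [sum_map]
    have : ∑ x ∈ T, e.symm x = 0 := by rw [← map_sum, hs, map_zero]
    exact this

lemma allNonempty (p : ℕ) [hp : Fact p.Prime] (h3 : 3 ≤ p) (S : Finset (ZMod p × ZMod p))
    (hS : #S + 1 = 2 * p) (h : ∀ j, 1 ≤ #(fib S j)) : HasZS p S := by
  apply core p S (fun _ => 1) h
  · simp
  · have h1 : ∑ j : ZMod p, j = ∑ j : ZMod p, -j := (Equiv.sum_comp (Equiv.neg _) fun j => j).symm
    rw [sum_neg_distrib] at h1
    have h2 : (2 : ZMod p) ≠ 0 := by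
      intro h
      have : ((2 : ℕ) : ZMod p) = 0 := by exact_mod_cast h
      rw [ZMod.natCast_eq_zero_iff] at this
      have := Nat.le_of_dvd (by norm_num) this
      omega
    have h4 : (2 : ZMod p) * ∑ j : ZMod p, j = 0 := by linear_combination h1
    simpa [h2] using h4
  · have h1 := card_fib S
    have h2 : ∑ j, #(fib S j) = ∑ j, (1 * (#(fib S j) - 1) + 1) :=
      sum_congr rfl fun j _ => by have := h j; omega
    rw [sum_add_distrib, sum_const, card_univ, ZMod.card, smul_eq_mul] at h2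
    omega

/-- A shear followed by the swap of coordinates. -/
def shear {p : ℕ} (s : ZMod p) : ZMod p × ZMod p ≃+ ZMod p × ZMod p where
  toFun x := (x.2 - s * x.1, x.1)
  invFun u := (u.2, u.1 + s * u.2)
  left_inv x := by simp
  right_inv u := by simp
  map_add' x y := by ext <;> simp; ring

lemma card_fib_eq {p : ℕ} [NeZero p] (S : Finset (ZMod p × ZMod p)) (j : ZMod p) :
    #(fib S j) = #{x ∈ S | x.1 = j} := by
  refine card_bij (fun y _ => (j, y)) ?_ ?_ ?_
  · intro y hy; simpa [fib] using hy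
  · intro a _ b _ h; simpa using h
  · rintro ⟨a, b⟩ hx
    obtain ⟨h1, rfl⟩ := mem_filter.mp hx
    exact ⟨b, by simpa [fib] using h1, rfl⟩

lemma card_fib_shear {p : ℕ} [NeZero p] (S : Finset (ZMod p × ZMod p)) (s j : ZMod p) :
    #(fib (S.map (shear s).toEquiv.toEmbedding) j) = #{x ∈ S | x.2 - s * x.1 = j} := by
  rw [card_fib_eq, filter_map, card_map]
  rfl

lemma bigLine (p : ℕ) [hp : Fact p.Prime] (h3 : 3 ≤ p) (S : Finset (ZMod p × ZMod p))
    (hS : #S + 1 = 2 * p) (j : ZMod p) (hj : p ≤ #(fib S j) + 1) : HasZS p S := by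
  classical
  obtain ⟨y0, hy0⟩ : ∃ y0 : ZMod p, ∀ y, y ≠ y0 → (j, y) ∈ S := by
    have h1 : #(fib S j)ᶜ ≤ 1 := by rw [card_compl, ZMod.card]; omega
    obtain ⟨y0, hy0⟩ := card_le_one_iff_subset_singleton.mp h1
    refine ⟨y0, fun y hy => ?_⟩
    by_contra hcon
    exact hy (mem_singleton.mp (hy0 (by simpa [fib] using hcon)))
  obtain ⟨Q, hQ, hQj⟩ : ∃ Q ∈ S, Q.1 ≠ j := by
    by_contra hcon
    push Not at hcon
    have h1 : #(fib S j) = #S := by rw [card_fib_eq, filter_true_of_mem hcon]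
    have h2 : #(fib S j) ≤ p := (card_le_univ _).trans (ZMod.card p).le
    omega
  apply transport S (shear ((Q.2 - y0) / (Q.1 - j)))
  apply allNonempty p h3 _ (by rw [card_map, hS])
  intro c
  rw [card_fib_shear, one_le_card]
  set s := (Q.2 - y0) / (Q.1 - j) with hs
  by_cases hc : c + s * j = y0
  · refine ⟨Q, mem_filter.mpr ⟨hQ, ?_⟩⟩
    have h1 : s * (Q.1 - j) = Q.2 - y0 := div_mul_cancel₀ _ (sub_ne_zero.mpr hQj)
    linear_combination -h1 - hc
  · exact ⟨(j, c + s * j), mem_filter.mpr ⟨hy0 _ hc, by simp⟩⟩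

lemma sum_sq_fiber {α β : Type*} [Fintype β] [DecidableEq β] (S : Finset α) (φ : α → β) :
    ∑ j, #{x ∈ S | φ x = j} ^ 2 = ∑ x ∈ S, ∑ y ∈ S, if φ x = φ y then 1 else 0 := by
  simp only [sq, card_filter, sum_mul_sum]
  rw [sum_comm]
  refine sum_congr rfl fun x _ => ?_
  rw [sum_comm]
  refine sum_congr rfl fun y _ => ?_
  by_cases h : φ x = φ y
  · simp [h]
  · rw [if_neg h]
    refine sum_eq_zero fun j _ => ?_
    by_cases h1 : φ x = j
    · have : φ y ≠ j := fun h2 => h (h1.trans h2.symm)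
      simp [this]
    · simp [h1]

theorem upper (p : ℕ) [hp : Fact p.Prime] (h11 : 11 ≤ p) (S : Finset (ZMod p × ZMod p))
    (hS : #S + 1 = 2 * p) : HasZS p S := by
  classical
  have key : ∀ S' : Finset (ZMod p × ZMod p), #S' + 1 = 2 * p →
      6 * p ≤ ∑ j, #(fib S' j) ^ 2 + 10 → HasZS p S' := by
    intro S' hS' hN
    by_cases h : ∀ j, #(fib S' j) + 2 ≤ p
    · exact energy p h11 S' hS' hN h
    · push Not at h
      obtain ⟨j, hj⟩ := h
      exact bigLine p (by omega) S' hS' j (by omega)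
  by_contra hcon
  have h0 : ∑ j, #(fib S j) ^ 2 + 11 ≤ 6 * p := by
    by_contra h; exact hcon (key S hS (by omega))
  have h1 : ∀ s : ZMod p, ∑ j, #{x ∈ S | x.2 - s * x.1 = j} ^ 2 + 11 ≤ 6 * p := by
    intro s
    by_contra h
    apply hcon
    apply transport S (shear s)
    apply key _ (by rw [card_map, hS])
    simp only [card_fib_shear]
    omega
  simp only [card_fib_eq] at h0
  rw [sum_sq_fiber S fun x => x.1] at h0
  have h2 : ∑ s : ZMod p, (∑ j, #{x ∈ S | x.2 - s * x.1 = j} ^ 2 + 11) ≤ ∑ _s : ZMod p, 6 * p :=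
    sum_le_sum fun s _ => h1 s
  rw [sum_add_distrib, sum_const, sum_const, card_univ, ZMod.card, smul_eq_mul, smul_eq_mul] at h2
  have h3 : ∑ s : ZMod p, ∑ j, #{x ∈ S | x.2 - s * x.1 = j} ^ 2 =
      ∑ x ∈ S, ∑ y ∈ S, ∑ s : ZMod p, if x.2 - s * x.1 = y.2 - s * y.1 then 1 else 0 := by
    rw [sum_congr rfl fun s _ => sum_sq_fiber S fun x => x.2 - s * x.1, sum_comm]
    exact sum_congr rfl fun x _ => sum_comm
  have h4 : ∀ x ∈ S, ∀ y ∈ S, 1 + (if y = x then p else 0) ≤
      (∑ s : ZMod p, if x.2 - s * x.1 = y.2 - s * y.1 then 1 else 0) +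
        if x.1 = y.1 then 1 else 0 := by
    intro x _ y _
    by_cases hxy : y = x
    · subst hxy; simp [add_comm]
    · rw [if_neg hxy]
      by_cases h1 : x.1 = y.1
      · rw [if_pos h1]; omega
      · have h5 : (if x.2 - (x.2 - y.2) / (x.1 - y.1) * x.1 = y.2 - (x.2 - y.2) / (x.1 - y.1) * y.1
            then 1 else 0) ≤ ∑ s : ZMod p, if x.2 - s * x.1 = y.2 - s * y.1 then 1 else 0 :=
          single_le_sum (f := fun s : ZMod p => if x.2 - s * x.1 = y.2 - s * y.1 then 1 else 0)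
            (fun _ _ => Nat.zero_le _) (mem_univ _)
        have h6 : (x.2 - y.2) / (x.1 - y.1) * (x.1 - y.1) = x.2 - y.2 :=
          div_mul_cancel₀ _ (sub_ne_zero.mpr h1)
        rw [if_pos (by linear_combination -h6)] at h5
        omega
  have h5 : ∑ x ∈ S, ∑ y ∈ S, (1 + (if y = x then p else 0)) ≤
      ∑ x ∈ S, ∑ y ∈ S, ((∑ s : ZMod p, if x.2 - s * x.1 = y.2 - s * y.1 then 1 else 0) +
        if x.1 = y.1 then 1 else 0) :=
    sum_le_sum fun x hx => sum_le_sum fun y hy => h4 x hx y hy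
  have h6 : ∑ x ∈ S, ∑ y ∈ S, (1 + (if y = x then p else 0)) = #S * (#S + p) := by
    rw [sum_congr rfl (g := fun _ => #S + p) fun x hx => by
      rw [sum_add_distrib, sum_ite_eq', if_pos hx]; simp]
    simp
  simp only [sum_add_distrib] at h5 h6
  rw [h6, ← h3] at h5
  obtain ⟨q, rfl⟩ : ∃ q, p = q + 1 := ⟨p - 1, by omega⟩
  have h7 : #S = 2 * q + 1 := by omega
  rw [h7] at h5
  nlinarith

end Pool.Agent.Lib.MP_1c09d5_co
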